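import Pool.Agent.V11281.Snf.Three

/-!
# `snf`-countability passes from `F₂(X)` to `F₃(X)` and from `A₂(X)` to `A₃(X)`
-/

set_option autoImplicit false

open Set Topology Filter
open Pool.Agent.V11281

namespace Pool.Agent.Results.MP_e5b41c_gt.SnfTwoThree

universe u

/-- Let `X` be a Tychonoff `k`-space with a regular `G_δ`-diagonal.  If `F₂(X)` is
`snf`-countable then `F₃(X)` is `snf`-countable.  If `A₂(X)` is `snf`-countable then `A₃(X)`, and
in fact every `A_n(X)`, is `snf`-countable. -/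
theorem result (X : Type u) [TopologicalSpace X] [T35Space X] (hk : Snf.IsKSpace X)
    (hD : Snf.RegularGdeltaDiagonal X) :
    (Snf.SnfCountable (F4.Fn X 2) → Snf.SnfCountable (F4.Fn X 3)) ∧
      (Snf.SnfCountable (Snf.An X 2) → ∀ n : ℕ, Snf.SnfCountable (Snf.An X n)) :=
  ⟨fun h => Snf3.snf_F3 (Snf.seqB_of_kSpace hk hD) h,
    fun h n => Snf.snf_An (Snf.seqB_of_kSpace hk hD) le_rfl h n⟩

end Pool.Agent.Results.MP_e5b41c_gt.SnfTwoThree
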